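import Pool.Agent.helper4.GA.Spec

set_option autoImplicit false

/-!
# MP_3c0a64_an, gauge form, row ga:ALG
-/

open Finset
open Pool.Agent.helper32.Cant

namespace Pool.Agent.GA

theorem ALG : ALG_stmt := by
  intro s V e H hH hHV he
  set A : ℂ := ∑ r ∈ s, V r with hA
  set B : ℂ := ∑ r ∈ s, V r * e r with hB
  set W : ℂ := ∑ r ∈ s, (H r : ℂ) * e r with hW
  set F : ℝ := ∑ r ∈ s, ‖V r‖ ^ 2 / H r with hF
  have hF0 : 0 ≤ F := sum_nonneg fun r hr => div_nonneg (sq_nonneg _) (hH r hr)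
  have hK0 : 0 ≤ ∑ r ∈ s, H r + ‖W‖ := add_nonneg (sum_nonneg hH) (norm_nonneg _)
  set m : ℝ := ‖A‖ ^ 2 + ‖B‖ ^ 2 with hm
  have hm0 : 0 ≤ m := by positivity
  set c : ℕ → ℂ := fun r => (starRingEnd ℂ) A + e r * (starRingEnd ℂ) B with hc
  -- first step
  have h1 : (m : ℂ) = ∑ r ∈ s, V r * c r := by
    have e1 : ∑ r ∈ s, V r * c r = A * (starRingEnd ℂ) A + B * (starRingEnd ℂ) B := by
      rw [hA, hB, sum_mul, sum_mul, ← sum_add_distrib]
      refine sum_congr rfl fun r _ => ?_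
      rw [hc]
      simp only
      ring
    rw [e1, Complex.mul_conj, Complex.mul_conj, hm, Complex.normSq_eq_norm_sq,
      Complex.normSq_eq_norm_sq]
    push_cast
    ring
  have h2 : m ≤ ∑ r ∈ s, ‖V r‖ * ‖c r‖ := by
    have e2 : m = ‖(m : ℂ)‖ := by rw [Complex.norm_real, Real.norm_of_nonneg hm0]
    rw [e2, h1]
    refine (norm_sum_le _ _).trans (sum_le_sum fun r _ => ?_)
    rw [norm_mul]
  have h3 : (∑ r ∈ s, ‖V r‖ * ‖c r‖) ^ 2 ≤ F * ∑ r ∈ s, H r * ‖c r‖ ^ 2 := by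
    refine sum_sq_le_sum_mul_sum_of_sq_eq_mul s
      (fun r hr => div_nonneg (sq_nonneg _) (hH r hr))
      (fun r hr => mul_nonneg (hH r hr) (sq_nonneg _)) fun r hr => ?_
    by_cases h0 : H r = 0
    · rw [hHV r hr h0, h0]
      simp
    · rw [mul_pow, div_mul_eq_mul_div, eq_div_iff h0]
      ring
  have h4 : ∑ r ∈ s, H r * ‖c r‖ ^ 2 ≤ (∑ r ∈ s, H r + ‖W‖) * m := by
    have e4 : ∀ r ∈ s, H r * ‖c r‖ ^ 2 = H r * m +
        2 * ((starRingEnd ℂ) A * B * (starRingEnd ℂ) ((H r : ℂ) * e r)).re := by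
      intro r hr
      have e5 : ‖c r‖ ^ 2 = m + 2 * ((starRingEnd ℂ) A * B * (starRingEnd ℂ) (e r)).re := by
        rw [← Complex.normSq_eq_norm_sq, hc]
        simp only
        rw [Complex.normSq_add, Complex.normSq_mul, Complex.normSq_conj, Complex.normSq_conj,
          Complex.normSq_eq_norm_sq, Complex.normSq_eq_norm_sq, Complex.normSq_eq_norm_sq,
          he r hr, map_mul, Complex.conj_conj, hm]
        have e6 : (starRingEnd ℂ) A * ((starRingEnd ℂ) (e r) * B) =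
            (starRingEnd ℂ) A * B * (starRingEnd ℂ) (e r) := by ring
        rw [e6]
        ring
      rw [e5, map_mul, Complex.conj_ofReal]
      have e7 : (starRingEnd ℂ) A * B * ((H r : ℂ) * (starRingEnd ℂ) (e r)) =
          (H r : ℂ) * ((starRingEnd ℂ) A * B * (starRingEnd ℂ) (e r)) := by ring
      rw [e7, Complex.re_ofReal_mul]
      ring
    rw [sum_congr rfl e4, sum_add_distrib, ← sum_mul, ← mul_sum, ← Complex.re_sum, ← mul_sum,
      ← map_sum, ← hW]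
    have e8 : ((starRingEnd ℂ) A * B * (starRingEnd ℂ) W).re ≤ ‖A‖ * ‖B‖ * ‖W‖ := by
      refine (Complex.re_le_norm _).trans ?_
      rw [norm_mul, norm_mul, Complex.norm_conj, Complex.norm_conj]
    have e9 : 2 * (‖A‖ * ‖B‖) ≤ m := by
      rw [hm]
      nlinarith [sq_nonneg (‖A‖ - ‖B‖)]
    have e10 : 2 * (‖A‖ * ‖B‖) * ‖W‖ ≤ m * ‖W‖ := mul_le_mul_of_nonneg_right e9 (norm_nonneg _)
    nlinarith
  rcases hm0.eq_or_lt with h0 | h0
  · rw [← h0]
    exact mul_nonneg hK0 hF0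
  · have h5 : m * m ≤ ((∑ r ∈ s, H r + ‖W‖) * F) * m := by
      calc m * m = m ^ 2 := (sq m).symm
        _ ≤ (∑ r ∈ s, ‖V r‖ * ‖c r‖) ^ 2 := pow_le_pow_left₀ hm0 h2 2
        _ ≤ F * ∑ r ∈ s, H r * ‖c r‖ ^ 2 := h3
        _ ≤ F * ((∑ r ∈ s, H r + ‖W‖) * m) := mul_le_mul_of_nonneg_left h4 hF0
        _ = ((∑ r ∈ s, H r + ‖W‖) * F) * m := by ring
    exact le_of_mul_le_mul_right h5 h0

end Pool.Agent.GA
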