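import Pool.Agent.helper4.GA.Spec

set_option autoImplicit false

/-!
# MP_3c0a64_an, gauge form, row ga:TW1
-/

open Finset
open Pool.Agent.helper32.Cant

namespace Pool.Agent.GA

theorem TW1_ind_le {q : Prop} {b : ℝ} (hb : 0 ≤ b) (h : q → 1 ≤ b) : ind q ≤ b := by
  unfold ind
  split_ifs with hq
  · exact h hq
  · exact hb

theorem TW1_ind_le_one (q : Prop) : ind q ≤ 1 := by
  unfold ind
  split_ifs <;> norm_num

theorem TW1 (hCHI : CHI_stmt) (hCMB : CMB_stmt) (hBAL : BAL_stmt) (hPT1 : PT1_stmt) :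
    TW1_stmt := by
  classical
  intro n c κ g T sh ζ η U p o Z hκn hg hT hsh hζ1 hζ2 hη0 hη1
  obtain ⟨hne, hchain, hle, -, -, -⟩ := hPT1 g κ T o (by omega) hT
  obtain ⟨a, l, hal⟩ := List.exists_cons_of_ne_nil hne
  rw [hal] at hchain hle ⊢
  have hchain4 : List.IsChain (fun i j => i + 4 ≤ j) (a :: l) :=
    hchain.imp (fun i j h => by omega)
  have hlen : ∀ i ∈ a :: l, i ≤ n := fun i hi => (hle i hi).trans hκn
  have hw : ∀ x, 0 < wt c κ p x := fun x =>
    ((hCHI (3 ^ (2 * n)) ((3 : ℝ) ^ (2 * n - κ)) (by positivity)).1 (uv c p x)).1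
  have hR : ∀ x, c.R x + sh < 3 ^ (n + 1) := by
    intro x
    have h1 := c.hi x
    rw [pow_succ]
    omega
  set w := wt c κ p with hwdef
  set S : Fin (3 ^ n) → ℝ := fun x => (((a :: l).dropLast.map
        (fun i => ind (good n sh i (c.R x)) * om n c.R w i x)).sum) with hS
  set Q : ℝ := Real.exp (-(U / 60000)) + η + Real.exp (-(2 * U)) with hQ
  set f : Fin (3 ^ n) → ℝ := fun x => w x * Q + w x * (if x ∈ Z then 1 else Real.exp (4 * U - S x))
    with hf
  have hr : ∀ r : ℕ, pot n sh ζ η c.R w (a :: l) {x | rc n sh a (c.R x) = r} ≤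
      ∑ x ∈ univ.filter (fun x => rc n sh a (c.R x) = r), f x := by
    intro r
    have h1 := hCMB (Fin (3 ^ n)) n sh ζ η c.R w hζ1 hζ2 hη0.le hη1 hw hR l a r
      {x | rc n sh a (c.R x) = r} U hchain4 hlen (fun x hx => (mem_filter.1 hx).2)
    refine h1.trans ?_
    rw [sum_mul, ← sum_add_distrib]
    refine sum_le_sum fun x hx => ?_
    have hxr : rc n sh a (c.R x) = r := (mem_filter.1 hx).2
    have h2 := hBAL (Fin (3 ^ n)) n sh c.R w hw l a x hchain4 hlen
    rw [hxr] at h2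
    refine add_le_add le_rfl (mul_le_mul_of_nonneg_left ?_ (hw x).le)
    by_cases hxZ : x ∈ Z
    · rw [if_pos hxZ]
      exact TW1_ind_le_one _
    · rw [if_neg hxZ]
      refine TW1_ind_le (Real.exp_pos _).le fun hlt => ?_
      rw [← Real.exp_zero]
      refine Real.exp_le_exp.2 ?_
      have : S x ≤ 4 * U := h2.trans hlt.le
      linarith
  have hsum : rpot n sh ζ η c.R w (a :: l) ≤ ∑ x, f x := by
    unfold rpot
    refine (sum_le_sum fun r _ => hr r).trans ?_
    refine le_of_eq ?_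
    refine sum_fiberwise_of_maps_to (s := univ) (t := range (3 ^ (n + 1)))
      (g := fun x => rc n sh a (c.R x)) (fun x _ => ?_) f
    rw [mem_range]
    unfold rc
    exact (Nat.div_le_self _ _).trans_lt (hR x)
  refine hsum.trans (le_of_eq ?_)
  rw [hf, sum_add_distrib, ← sum_mul, add_assoc]
  refine congrArg₂ (· + ·) rfl ?_
  rw [← sum_sdiff (subset_univ Z), add_comm]
  refine congrArg₂ (· + ·) ?_ ?_
  · refine sum_congr rfl fun x hx => ?_
    rw [if_pos hx, mul_one]
  · refine sum_congr rfl fun x hx => ?_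
    rw [if_neg (mem_sdiff.1 hx).2]

end Pool.Agent.GA
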